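import Pool.Agent.Helper22.ARLift
import Pool.Agent.Helper22.ARAsym

/-!
# Almost regular diagonal Ramsey graphs up to the bound of Spencer (MP_e0fa86_co)
-/

namespace Pool.Agent.Results.MP_e0fa86_co.DiagonalSpencerRange

open Pool.Agent.Helper22.AR

/-- For every `c < √2 / e` and all large `s`, for every `n ≤ c s 2^(s/2)` there is an almost
regular graph on `n` vertices without a clique and without an independent set of size `s`. -/
theorem result :
    ∀ c : ℝ, c < Real.sqrt 2 / Real.exp 1 → ∃ s₀ : ℕ, ∀ s n : ℕ, s₀ ≤ s →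
      (n : ℝ) ≤ c * s * Real.sqrt 2 ^ s →
      ∃ G : SimpleGraph (Fin n), G.CliqueFree s ∧ Gᶜ.CliqueFree s ∧
        ∀ v w : Fin n, Nat.card (G.neighborSet v) ≤ Nat.card (G.neighborSet w) + 1 := by
  intro c hc
  obtain ⟨s₀, hs₀, h⟩ := asym c hc
  refine ⟨s₀, fun s n hs hn => ?_⟩
  have h1 := h s n hs hn
  have h2 : s + 2 < s.choose 2 := by
    obtain ⟨k, rfl⟩ : ∃ k, s = k + 2 := ⟨s - 2, by omega⟩
    have := two_mul_choose k
    have h3 : 3 ≤ k := by omega
    nlinarith
  obtain ⟨G, g1, g2, g3⟩ := exists_lift h2 h1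
  have hc2 : Fintype.card (Fin ((n + 1) / 2) × Bool) = (n + 1) / 2 * 2 := by
    simp [Fintype.card_prod]
  rcases Nat.even_or_odd' n with ⟨k, hk | hk⟩
  · exact exists_fin (by rw [hc2]; omega) g1 g2 g3.almost
  · exact exists_fin_pred (by rw [hc2]; omega) g1 g2 g3

end Pool.Agent.Results.MP_e0fa86_co.DiagonalSpencerRange
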