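import Pool.Agent.Helper22.ARQuad

/-!
# Almost regular Ramsey graphs from arbitrary Ramsey graphs with half the parameters (MP_e0fa86_co)
-/

namespace Pool.Agent.Results.MP_e0fa86_co.HalfParameters

open Pool.Agent.Helper22.AR

/-- The graphs on `4 m`, `4 m - 1`, `4 m - 2` and `4 m - 3` vertices. -/
theorem step {s t m : ℕ} (H : SimpleGraph (Fin (m + 1))) (h1 : H.CliqueFree s)
    (h2 : Hᶜ.CliqueFree t) (n : ℕ) (hn1 : 4 * m < n) (hn2 : n ≤ 4 * (m + 1)) :
    ∃ G : SimpleGraph (Fin n), G.CliqueFree (2 * s - 1) ∧ Gᶜ.CliqueFree (2 * t - 1) ∧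
      AlmostRegular G := by
  classical
  have hc : Fintype.card (Fin (m + 1) × Bool × Bool) = 4 * (m + 1) := by
    simp [Fintype.card_prod]
    ring
  have hreg := quad_regular H
  have hq1 := quad_cliqueFree h1
  have hq2 := quad_compl_cliqueFree h2
  rcases Nat.lt_or_ge n (4 * m + 3) with hlt | hge
  · -- two deleted vertices
    set v : Fin (m + 1) := 0 with hv
    have hfin : Fintype (delSet v) := Fintype.ofFinite _
    have hc2 : Fintype.card (delSet v) = 4 * m + 2 := by
      have e1 : delSet v = ({(v, false, false), (v, true, false)} : Set _)ᶜ := by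
        ext z
        unfold delSet
        simp only [Set.mem_ofPred_eq, Set.mem_compl_iff, Set.mem_insert_iff,
          Set.mem_singleton_iff]
        tauto
      rw [← Nat.card_eq_fintype_card, Nat.card_coe_set_eq, e1, Set.ncard_compl,
        Set.ncard_pair (by simp), Nat.card_eq_fintype_card, hc]
      omega
    have hr2 := quad_delete_regular H v
    have c1 := cliqueFree_induce hq1 (delSet v)
    have c2 : ((quad H).induce (delSet v))ᶜ.CliqueFree (2 * t - 1) := by
      rw [compl_induce]
      exact cliqueFree_induce hq2 _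
    rcases Nat.lt_or_ge n (4 * m + 2) with hlt' | hge'
    · exact exists_fin_pred (by rw [hc2]; omega) c1 c2 hr2
    · exact exists_fin (by rw [hc2]; omega) c1 c2 hr2.almost
  · rcases Nat.lt_or_ge n (4 * m + 4) with hlt' | hge'
    · exact exists_fin_pred (by rw [hc]; omega) hq1 hq2 hreg
    · exact exists_fin (by rw [hc]; omega) hq1 hq2 hreg.almost

/-- If there is any graph on `N` vertices without `K_s` and without an independent set of size
`t` then for every `n` with `1 ≤ n ≤ 4 N` there is an almost regular graph on `n` vertices without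
`K_{2 s - 1}` and without an independent set of size `2 t - 1`. -/
theorem result :
    ∀ s t N n : ℕ, (∃ H : SimpleGraph (Fin N), H.CliqueFree s ∧ Hᶜ.CliqueFree t) →
      1 ≤ n → n ≤ 4 * N →
      ∃ G : SimpleGraph (Fin n), G.CliqueFree (2 * s - 1) ∧ Gᶜ.CliqueFree (2 * t - 1) ∧
        ∀ v w : Fin n, Nat.card (G.neighborSet v) ≤ Nat.card (G.neighborSet w) + 1 := by
  intro s t N n ⟨H, h1, h2⟩ hn1 hn2
  obtain ⟨m, hm1, hm2⟩ : ∃ m, 4 * m < n ∧ n ≤ 4 * (m + 1) := ⟨(n - 1) / 4, by omega, by omega⟩
  have hmN : m + 1 ≤ N := by omega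
  have f : Fin (m + 1) ↪ Fin N := (Fin.castLEEmb hmN)
  refine step (H.comap f) ?_ ?_ n hm1 hm2
  · exact h1.comap ⟨(SimpleGraph.Embedding.comap f H).toCopy⟩
  · have e : (H.comap f)ᶜ = Hᶜ.comap f := by
      ext u v
      simp only [SimpleGraph.compl_adj, SimpleGraph.comap_adj]
      constructor
      · rintro ⟨a, b⟩
        exact ⟨fun h => a (f.injective h), b⟩
      · rintro ⟨a, b⟩
        exact ⟨fun h => a (h ▸ rfl), b⟩
    rw [e]
    exact h2.comap ⟨(SimpleGraph.Embedding.comap f Hᶜ).toCopy⟩

end Pool.Agent.Results.MP_e0fa86_co.HalfParameters
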