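import Pool.Agent.Helper95.OD.Fin

/-!
# Almost regular off-diagonal Ramsey graphs in the range of Spencer (MP_e0fa86_co)
-/

namespace Pool.Agent.Results.MP_e0fa86_co.OffDiagonalSpencerRange

/-- For all `s ≥ 3`, `t ≥ 2` and `n ≤ (t / (40000 s log t))^((s+1)/2)` there is an almost regular
graph on `n` vertices without a clique of size `s` and without an independent set of size `t`. -/
theorem result :
    ∀ s t n : ℕ, 3 ≤ s → 2 ≤ t →
      (n : ℝ) ≤ ((t : ℝ) / (40000 * s * Real.log t)) ^ (((s : ℝ) + 1) / 2) →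
      ∃ G : SimpleGraph (Fin n), G.CliqueFree s ∧ Gᶜ.CliqueFree t ∧
        ∀ v w : Fin n, Nat.card (G.neighborSet v) ≤ Nat.card (G.neighborSet w) + 1 :=
  Pool.Agent.Helper95.OD.fin

end Pool.Agent.Results.MP_e0fa86_co.OffDiagonalSpencerRange
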