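import Pool.Agent.Helper95.RP.Fin

/-!
# Almost regular Ramsey graphs for all parameters, up to a polylogarithmic factor (MP_e0fa86_co)
-/

namespace Pool.Agent.Results.MP_e0fa86_co.UpToPolylog

/-- If there is a graph on `n ≥ 2` vertices without a clique of size `s` and without an
independent set of size `t`, then
(1) if `s ≥ 3`, there is an almost regular graph on `n` vertices without a clique of size `s` and
without an independent set of size `10^18 t ⌈log₂ n⌉^7`;
(2) if `t ≥ 3`, there is an almost regular graph on `n` vertices without a clique of size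
`10^18 s ⌈log₂ n⌉^7` and without an independent set of size `t`. -/
theorem result :
    ∀ s t n : ℕ, 2 ≤ n →
      (∃ G : SimpleGraph (Fin n), G.CliqueFree s ∧ Gᶜ.CliqueFree t) →
      (3 ≤ s → ∃ G : SimpleGraph (Fin n), G.CliqueFree s ∧
        Gᶜ.CliqueFree (10 ^ 18 * t * (Nat.clog 2 n) ^ 7) ∧
        ∀ v w : Fin n, Nat.card (G.neighborSet v) ≤ Nat.card (G.neighborSet w) + 1) ∧
      (3 ≤ t → ∃ G : SimpleGraph (Fin n), G.CliqueFree (10 ^ 18 * s * (Nat.clog 2 n) ^ 7) ∧
        Gᶜ.CliqueFree t ∧
        ∀ v w : Fin n, Nat.card (G.neighborSet v) ≤ Nat.card (G.neighborSet w) + 1) :=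
  fun s t n hn h => ⟨fun hs => Pool.Agent.Helper95.RP.fin1 s t n hs hn h,
    fun ht => Pool.Agent.Helper95.RP.fin2 s t n ht hn h⟩

end Pool.Agent.Results.MP_e0fa86_co.UpToPolylog
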